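import Pool.Agent.helper63.Dg4.Main

/-!
# The Borel class of `Diag`

`Diag`, the set of all oracles computing a diagonal function for every computably enumerable
equivalence relation with at least two classes, is a `Π⁰₄` set and not a `Σ⁰₄` set (boldface).
Hence it is not the class of the oracles computing a member of `S`, for any `Σ⁰₄` set `S`; in
particular no finite set of ceers is hardest.
-/

namespace Pool.Agent.Results.MP_a87378_lc.BorelClass

/-- A ceer: a computably enumerable equivalence relation on the natural numbers. -/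
def IsCeer (E : ℕ → ℕ → Prop) : Prop :=
  Equivalence E ∧ REPred fun p : ℕ × ℕ => E p.1 p.2

/-- `g` is a diagonal function for `E`. -/
def IsDiagonal (E : ℕ → ℕ → Prop) (g : ℕ → ℕ) : Prop := ∀ x, ¬ E (g x) x

/-- The (total) function `f` is Turing computable from the oracle `X`. -/
def ComputableFrom (f X : ℕ → ℕ) : Prop :=
  TuringReducible (fun n => Part.some (f n)) (fun n => Part.some (X n))

/-- `X` computes a diagonal function for `E`. -/
def ComputesDiagonal (X : ℕ → ℕ) (E : ℕ → ℕ → Prop) : Prop :=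
  ∃ g : ℕ → ℕ, ComputableFrom g X ∧ IsDiagonal E g

/-- The degree of `X` belongs to the class `Diag`: every ceer `E` with `E ≠ Id₁` (that is, with two
inequivalent numbers) has a diagonal function computable from `X`. -/
def InDiag (X : ℕ → ℕ) : Prop :=
  ∀ E : ℕ → ℕ → Prop, IsCeer E → (∃ a b, ¬ E a b) → ComputesDiagonal X E

/-- `S` is a (boldface) `Σ⁰₄` set of functions: a countable union of countable intersections of
countable unions of closed sets (for the product topology of `ℕ → ℕ`, `ℕ` discrete). -/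
def IsSigma04 (S : Set (ℕ → ℕ)) : Prop :=
  ∃ C : ℕ → ℕ → ℕ → Set (ℕ → ℕ), (∀ n m i, IsClosed (C n m i)) ∧ S = ⋃ n, ⋂ m, ⋃ i, C n m i

theorem result :
    IsSigma04 {X | InDiag X}ᶜ ∧ ¬ IsSigma04 {X | InDiag X} ∧
      (∀ S, IsSigma04 S → ¬ ∀ X, InDiag X ↔ ∃ f ∈ S, ComputableFrom f X) ∧
      ∀ L : List (ℕ → ℕ → Prop), (∀ E ∈ L, IsCeer E ∧ ∃ a b, ¬ E a b) →
        ∃ E' : ℕ → ℕ → Prop, IsCeer E' ∧ (∃ a b, ¬ E' a b) ∧
          ∃ X, (∀ E ∈ L, ComputesDiagonal X E) ∧ ¬ ComputesDiagonal X E' := by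
  obtain ⟨hPI, hFIN, hUPW, hFCE⟩ := Pool.Agent.helper63.Dg4.main
  refine ⟨?_, ?_, ?_, hFCE⟩
  · obtain ⟨O, hO, hX⟩ := hPI
    refine ⟨fun n m i => (O n m i)ᶜ, fun n m i => (hO n m i).isClosed_compl, ?_⟩
    ext X
    have h := hX X
    simp only [Set.mem_compl_iff, Set.mem_iUnion, Set.mem_iInter]
    constructor
    · intro hn
      have h1 : ¬ InDiag X := hn
      by_contra hcon
      push Not at hcon
      exact h1 (h.2 (fun n => by
        obtain ⟨m, hm⟩ := hcon n
        exact ⟨m, fun i => hm i⟩))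
    · rintro ⟨n, hn⟩ hD
      have h1 : InDiag X := hD
      obtain ⟨m, hm⟩ := h.1 h1 n
      obtain ⟨i, hi⟩ := hn m
      exact hi (hm i)
  · rintro ⟨C, hC, hS⟩
    apply hFIN C hC
    intro X
    have h : X ∈ {X | InDiag X} ↔ X ∈ ⋃ n, ⋂ m, ⋃ i, C n m i := by rw [hS]
    simp only [Set.mem_iUnion, Set.mem_iInter] at h
    exact h
  · rintro S ⟨C, hC, hS⟩ hcon
    obtain ⟨C', hC', hX⟩ := hUPW C hC
    apply hFIN C' hC'
    intro X
    rw [← hX X]
    refine (hcon X).trans ?_
    rw [hS]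
    simp only [Set.mem_iUnion, Set.mem_iInter]
    constructor
    · rintro ⟨f, h1, h2⟩; exact ⟨f, h2, h1⟩
    · rintro ⟨f, h1, h2⟩; exact ⟨f, h2, h1⟩

end Pool.Agent.Results.MP_a87378_lc.BorelClass
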