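import Pool.Agent.helper63.Diag.Upper

/-!
# `Diag` is strictly larger than `PA`

For every countable family `H` of functions there is an oracle `X` that computes a diagonal
function for every computably enumerable equivalence relation with at least two classes, but
computes no diagonally noncomputable function bounded by a member of `H`.  In particular (`H` the
computable functions) the class `Diag` contains degrees that are not PA, and that compute no
Martin-Löf random real.
-/

namespace Pool.Agent.Results.MP_a87378_lc.DiagNotPA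

open Pool.Agent.helper63.Diag

/-- A ceer: a computably enumerable equivalence relation on the natural numbers. -/
def IsCeer (E : ℕ → ℕ → Prop) : Prop :=
  Equivalence E ∧ REPred fun p : ℕ × ℕ => E p.1 p.2

/-- `g` is a diagonal function for `E`. -/
def IsDiagonal (E : ℕ → ℕ → Prop) (g : ℕ → ℕ) : Prop := ∀ x, ¬ E (g x) x

/-- The (total) function `f` is Turing computable from the oracle `X`. -/
def ComputableFrom (f X : ℕ → ℕ) : Prop :=
  TuringReducible (fun n => Part.some (f n)) (fun n => Part.some (X n))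

/-- The degree of `X` belongs to the class `Diag`: every ceer `E` with `E ≠ Id₁` (that is, with two
inequivalent numbers) has a diagonal function computable from `X`. -/
def InDiag (X : ℕ → ℕ) : Prop :=
  ∀ E : ℕ → ℕ → Prop, IsCeer E → (∃ a b, ¬ E a b) →
    ∃ g : ℕ → ℕ, ComputableFrom g X ∧ IsDiagonal E g

/-- `f` is diagonally noncomputable: `f e ≠ φ_e(e)` whenever `φ_e(e)` converges. -/
def IsDNR (f : ℕ → ℕ) : Prop :=
  ∀ e m : ℕ, m ∈ Nat.Partrec.Code.eval (Nat.Partrec.Code.ofNatCode e) e → f e ≠ m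

/-- The degree of `X` is a PA degree, in the standard equivalent form: `X` computes a
`{0,1}`-valued diagonally noncomputable function. -/
def IsPA (X : ℕ → ℕ) : Prop :=
  ∃ f : ℕ → ℕ, ComputableFrom f X ∧ IsDNR f ∧ ∀ e, f e < 2

theorem crd_computableFrom (Y : ℕ → ℕ) (i m : ℕ) (L : List ℕ) :
    ComputableFrom (fun z => if z < m then L.getD z 0 else crd i (Y z)) Y := by
  have h1 : Primrec (fun p : ℕ => if p.unpair.1 < m then L.getD p.unpair.1 0
      else crd i p.unpair.2) := by
    have hf : Primrec (fun p : ℕ => p.unpair.1) := Primrec.fst.comp Primrec.unpair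
    have hs : Primrec (fun p : ℕ => p.unpair.2) := Primrec.snd.comp Primrec.unpair
    refine Primrec.ite (Primrec.nat_lt.comp hf (Primrec.const m)) ?_ ?_
    · exact (Primrec.list_getD 0).comp (Primrec.const L) hf
    · exact prim_crd.comp (Primrec.const i) hs
  have h2 : Nat.RecursiveIn {fun n => Part.some (Y n)}
      (fun p : ℕ => Part.some (if p.unpair.1 < m then L.getD p.unpair.1 0
        else crd i p.unpair.2)) :=
    Nat.Partrec.recursiveIn (Partrec.nat_iff.1 h1.to_comp.partrec)
  have h3 : Nat.RecursiveIn {fun n => Part.some (Y n)} (fun n => Part.some n) :=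
    Nat.Partrec.recursiveIn (Partrec.nat_iff.1 (Computable.id (α := ℕ)).partrec)
  have h4 : Nat.RecursiveIn {fun n => Part.some (Y n)} (fun n => Part.some (Y n)) :=
    Nat.RecursiveIn.oracle _ (Set.mem_singleton _)
  have h5 := Nat.RecursiveIn.comp h2 (Nat.RecursiveIn.pair h3 h4)
  refine RecursiveIn.iff_nat.2 (h5.of_eq fun n => ?_)
  simp [Seq.seq]

theorem result (H : Set (ℕ → ℕ)) (hH : H.Countable) :
    ∃ X : ℕ → ℕ, InDiag X ∧ ¬ IsPA X ∧
      ∀ h ∈ H, ∀ f : ℕ → ℕ, ComputableFrom f X → IsDNR f → ∃ e, h e ≤ f e := by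
  have hc : (insert (fun _ => 2) H).Countable := hH.insert _
  obtain ⟨Y, h1, h2⟩ := exists_upper hc ⟨_, Set.mem_insert _ _⟩
  have key : ∀ h ∈ insert (fun _ => 2) H, ∀ f : ℕ → ℕ, ComputableFrom f Y → IsDNR f →
      ∃ e, h e ≤ f e := by
    intro h hh f hf hdnr
    by_contra hcon
    push Not at hcon
    obtain ⟨D, hD, hA⟩ := s1_graph (X := Y) hf
    have hr := h2 ⟨h, hh, mon D, prim_mon hD, mon_mono⟩
    obtain ⟨e, m, hem, k, hk⟩ := hr (fun e => ⟨f e, hcon e, (ex_mon Y (e, f e)).2
      ((hA (e, f e)).1 rfl)⟩)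
    have h3 : f e = m := (hA (e, m)).2 ((ex_mon Y (e, m)).1 ⟨k, hk⟩)
    exact hdnr e m (by rw [← Nat.Partrec.Code.ofNatCode_eq]; exact hem) h3
  refine ⟨Y, ?_, ?_, fun h hh => key h (Set.mem_insert_of_mem _ hh)⟩
  · rintro E ⟨hE1, hE2⟩ hne
    obtain ⟨g, hg, i, m, hm⟩ := h1 ⟨E, hE1, hE2, hne⟩
    refine ⟨_, crd_computableFrom Y i m (res g m), ?_⟩
    intro x
    by_cases hx : x < m
    · simp only [hx, if_true]
      rw [res_getD g hx]
      exact hg x
    · simp only [hx, if_false]
      rw [hm x (not_lt.1 hx)]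
      exact hg x
  · rintro ⟨f, hf, hdnr, hlt⟩
    obtain ⟨e, he⟩ := key (fun _ => 2) (Set.mem_insert _ _) f hf hdnr
    exact absurd he (not_le.2 (hlt e))

end Pool.Agent.Results.MP_a87378_lc.DiagNotPA
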