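import Pool.Agent.helper18.DW.BFP

/-!
# Growth rates of diagonal functions

Below every computable order: diagonal functions that are eventually smaller than every computable
order do not give PA, and DNR functions of this kind do not even give `Diag`, even if they avoid
countably many further functions.  Below a suitable right-c.e. order both give PA.
-/

namespace Pool.Agent.Results.MP_a87378_lc.GrowthRates

open Pool.Agent.helper63.Diag Pool.Agent.helper63.RV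

/-- A ceer: a computably enumerable equivalence relation on the natural numbers. -/
def IsCeer (E : ℕ → ℕ → Prop) : Prop :=
  Equivalence E ∧ REPred fun p : ℕ × ℕ => E p.1 p.2

/-- `g` is a diagonal function for `E`. -/
def IsDiagonal (E : ℕ → ℕ → Prop) (g : ℕ → ℕ) : Prop := ∀ x, ¬ E (g x) x

/-- The (total) function `f` is Turing computable from the oracle `X`. -/
def ComputableFrom (f X : ℕ → ℕ) : Prop :=
  TuringReducible (fun n => Part.some (f n)) (fun n => Part.some (X n))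

/-- `f` is diagonally noncomputable: `f e ≠ φ_e(e)` whenever `φ_e(e)` converges. -/
def IsDNR (f : ℕ → ℕ) : Prop :=
  ∀ e m : ℕ, m ∈ Nat.Partrec.Code.eval (Nat.Partrec.Code.ofNatCode e) e → f e ≠ m

/-- The degree of `X` is a PA degree, in the standard equivalent form: `X` computes a
`{0,1}`-valued diagonally noncomputable function. -/
def IsPA (X : ℕ → ℕ) : Prop :=
  ∃ f : ℕ → ℕ, ComputableFrom f X ∧ IsDNR f ∧ ∀ e, f e < 2

/-- An order: a nondecreasing unbounded function. -/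
def IsOrder (h : ℕ → ℕ) : Prop := Monotone h ∧ ∀ m, ∃ n, m ≤ h n

/-- `g` is eventually below `h`. -/
def EventuallyBelow (g h : ℕ → ℕ) : Prop := ∃ m, ∀ x ≥ m, g x < h x

/-- `g` is slow: eventually below every computable order. -/
def IsSlow (g : ℕ → ℕ) : Prop :=
  ∀ h : ℕ → ℕ, Computable h → IsOrder h → EventuallyBelow g h

/-- `h` is right-c.e.: the limit of a computable nonincreasing sequence of functions. -/
def IsRightCE (h : ℕ → ℕ) : Prop :=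
  ∃ a : ℕ → ℕ → ℕ, Computable₂ a ∧ (∀ n s, a n (s + 1) ≤ a n s) ∧ ∀ n, ∃ s, ∀ t ≥ s, a n t = h n

theorem isDNR_iff {d : ℕ → ℕ} : IsDNR d ↔ DN d := by
  unfold IsDNR DN
  rw [← Nat.Partrec.Code.ofNatCode_eq]

theorem isPA_iff {X : ℕ → ℕ} : IsPA X ↔ ∃ f : ℕ → ℕ,
    Pool.Agent.helper63.Dg4.ComputableFrom f X ∧ DN f ∧ ∀ e, f e < 2 := by
  unfold IsPA
  simp only [isDNR_iff]
  exact Iff.rfl

theorem result :
    (∃ X : ℕ → ℕ, ¬ IsPA X ∧ ∀ E : ℕ → ℕ → Prop, IsCeer E → (∃ a b, ¬ E a b) →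
      ∃ g : ℕ → ℕ, ComputableFrom g X ∧ IsDiagonal E g ∧ IsSlow g) ∧
    (∃ E : ℕ → ℕ → Prop, IsCeer E ∧ (∃ a b, ¬ E a b) ∧ ∀ Ψ : Set (ℕ →. ℕ), Ψ.Countable →
      ∃ f : ℕ → ℕ, IsDNR f ∧ IsSlow f ∧ (∀ ψ ∈ Ψ, ∃ m, ∀ n ≥ m, f n ∉ ψ n) ∧
        ∀ g : ℕ → ℕ, ComputableFrom g f → ¬ IsDiagonal E g) ∧
    ∃ (h : ℕ → ℕ) (E : ℕ → ℕ → Prop), IsOrder h ∧ IsRightCE h ∧ IsCeer E ∧ (∃ a b, ¬ E a b) ∧
      ∀ X : ℕ → ℕ,
        (IsPA X ↔ ∃ f : ℕ → ℕ, ComputableFrom f X ∧ IsDNR f ∧ EventuallyBelow f h) ∧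
        (IsPA X ↔ ∃ g : ℕ → ℕ, ComputableFrom g X ∧ IsDiagonal E g ∧ EventuallyBelow g h) ∧
        (IsPA X ↔ ∀ E' : ℕ → ℕ → Prop, IsCeer E' → (∃ a b, ¬ E' a b) →
          ∃ g : ℕ → ℕ, ComputableFrom g X ∧ IsDiagonal E' g ∧ EventuallyBelow g h) := by
  refine ⟨?_, ?_, ?_⟩
  · obtain ⟨X, h1, h2⟩ := Pool.Agent.DW.CFN_all
    exact ⟨X, fun h => h1 (isPA_iff.1 h), h2⟩
  · obtain ⟨hE, hn, h⟩ := Pool.Agent.DW.BFP
    refine ⟨_, hE, hn, fun Ψ hΨ => ?_⟩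
    obtain ⟨f, h1, h2, h3, h4⟩ := h Ψ hΨ
    exact ⟨f, isDNR_iff.2 h1, h2, h3, fun g hg hd => h4 ⟨g, hg, hd⟩⟩
  · obtain ⟨h1, -, h3, h4⟩ := Pool.Agent.DW.RHO
    obtain ⟨fl, -, hl⟩ := E0_light
    have hE0 : IsCeer E0 := ⟨E0_equiv, E0_re⟩
    have hn0 : ∃ a b, ¬ E0 a b := ⟨_, _, hl 0 1 (by omega)⟩
    have hPA : ∀ X : ℕ → ℕ, IsPA X → ∀ E' : ℕ → ℕ → Prop, IsCeer E' → (∃ a b, ¬ E' a b) →
        ∃ g : ℕ → ℕ, ComputableFrom g X ∧ IsDiagonal E' g ∧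
          EventuallyBelow g (fun n => Pool.Agent.DW.hK (Nat.sqrt n)) := by
      intro X hX E' hE' hn'
      obtain ⟨g, hg, hd, B, hB⟩ := Pool.Agent.DW.RFN_two (isPA_iff.1 hX) hE' hn'
      obtain ⟨m, hm⟩ := h3.2 (B + 1)
      refine ⟨g, hg, hd, m, fun x hx => ?_⟩
      have h5 := h3.1 hx
      have h6 := hB x
      beta_reduce at h5 hm ⊢
      omega
    have hback : ∀ X g : ℕ → ℕ, ComputableFrom g X → IsDiagonal E0 g →
        EventuallyBelow g (fun n => Pool.Agent.DW.hK (Nat.sqrt n)) → IsPA X :=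
      fun X g hg hd hb => isPA_iff.2 (Pool.Agent.DW.RFN_E0 (RecursiveIn.iff_nat.1 hg) hd hb)
    refine ⟨_, E0, h3, h4, hE0, hn0, fun X => ⟨⟨?_, ?_⟩, ⟨?_, ?_⟩, ⟨hPA X, ?_⟩⟩⟩
    · rintro ⟨f, hf, hd, h5⟩
      refine ⟨f, hf, hd, ?_⟩
      obtain ⟨m, hm⟩ := h3.2 3
      refine ⟨m, fun x hx => ?_⟩
      have h6 := h3.1 hx
      have h7 := h5 x
      beta_reduce at h6 hm ⊢
      omega
    · rintro ⟨f, hf, hd, m, hm⟩
      refine isPA_iff.2 (Pool.Agent.DW.RPA_ev (RecursiveIn.iff_nat.1 hf) (isDNR_iff.1 hd)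
        ⟨m, fun n hn => ?_⟩)
      exact lt_of_lt_of_le (hm n hn) (h1.1 (Nat.sqrt_le_self n))
    · exact fun hX => hPA X hX E0 hE0 hn0
    · rintro ⟨g, hg, hd, hb⟩
      exact hback X g hg hd hb
    · intro hX
      obtain ⟨g, hg, hd, hb⟩ := hX E0 hE0 hn0
      exact hback X g hg hd hb

end Pool.Agent.Results.MP_a87378_lc.GrowthRates
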