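import Pool.Agent.helper63.Diag.Rand6
import Pool.Agent.helper63.Diag.Conv

/-!
# The Martin-Löf random degrees in `Diag`

There is a ceer `E ≠ Id₁` such that a Martin-Löf random sequence computes a diagonal function for
`E` if and only if it computes the halting problem.  Consequently a Martin-Löf random degree
belongs to `Diag` if and only if it is above the degree of the halting problem.
-/

namespace Pool.Agent.Results.MP_a87378_lc.RandomDegrees

open Pool.Agent.helper63.Diag
open scoped ENNReal

/-- A ceer: a computably enumerable equivalence relation on the natural numbers. -/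
def IsCeer (E : ℕ → ℕ → Prop) : Prop :=
  Equivalence E ∧ REPred fun p : ℕ × ℕ => E p.1 p.2

/-- `g` is a diagonal function for `E`. -/
def IsDiagonal (E : ℕ → ℕ → Prop) (g : ℕ → ℕ) : Prop := ∀ x, ¬ E (g x) x

/-- The (total) function `f` is Turing computable from the binary sequence (set) `X`. -/
def ComputableFrom (f : ℕ → ℕ) (X : ℕ → Bool) : Prop :=
  TuringReducible (fun n => Part.some (f n)) (fun n => Part.some (X n).toNat)

/-- `X` computes a diagonal function for `E`. -/
def ComputesDiagonal (X : ℕ → Bool) (E : ℕ → ℕ → Prop) : Prop :=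
  ∃ g : ℕ → ℕ, ComputableFrom g X ∧ IsDiagonal E g

/-- The degree of `X` belongs to the class `Diag`: every ceer `E` with `E ≠ Id₁` (that is, with two
inequivalent numbers) has a diagonal function computable from `X`. -/
def InDiag (X : ℕ → Bool) : Prop :=
  ∀ E : ℕ → ℕ → Prop, IsCeer E → (∃ a b, ¬ E a b) → ComputesDiagonal X E

/-- `U` is a Martin-Löf test: the sets `U k` of binary strings are uniformly c.e. and `U k` has
weight at most `2⁻ᵏ`, where the weight of a set of strings is the sum of `2^(-length)`. -/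
def IsMLTest (U : ℕ → Set (List Bool)) : Prop :=
  (REPred fun p : ℕ × List Bool => p.2 ∈ U p.1) ∧
    ∀ k, ∑' σ : U k, (2⁻¹ : ℝ≥0∞) ^ σ.1.length ≤ 2⁻¹ ^ k

/-- `X` is Martin-Löf random: for every test `U`, some `U k` contains no initial segment of `X`. -/
def MLRandom (X : ℕ → Bool) : Prop :=
  ∀ U, IsMLTest U → ∃ k, ∀ l, (List.range l).map X ∉ U k

open scoped Classical in
/-- The characteristic function of the halting problem `{n : φ_n(n) converges}`. -/
noncomputable def halting (n : ℕ) : ℕ :=
  if (Nat.Partrec.Code.eval (Nat.Partrec.Code.ofNatCode n) n).Dom then 1 else 0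

theorem kin_iff (n : ℕ) : (∃ s, kin s n) ↔
    (Nat.Partrec.Code.eval (Nat.Partrec.Code.ofNatCode n) n).Dom := by
  rw [Part.dom_iff_mem, ← Nat.Partrec.Code.ofNatCode_eq]
  constructor
  · rintro ⟨s, hs⟩
    obtain ⟨v, hv⟩ := Option.isSome_iff_exists.1 hs
    exact ⟨v, Nat.Partrec.Code.evaln_sound hv⟩
  · rintro ⟨v, hv⟩
    obtain ⟨s, hs⟩ := Nat.Partrec.Code.evaln_complete.1 hv
    exact ⟨s, Option.isSome_iff_exists.2 ⟨v, hs⟩⟩

theorem halting_of_diagonal {X : ℕ → Bool} (hX : MLRandom X) (h : ComputesDiagonal X ERand) :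
    ComputableFrom halting X := by
  obtain ⟨g, hg, hd⟩ := h
  obtain ⟨k0, hk0⟩ := hX USet ⟨re_USet, USet_weight⟩
  have h1 := s1_not_K (X := orc X) (fun n => by unfold orc; cases X n <;> simp)
    (s1_graph (X := orc X) hg) hd (k0 := k0) (fun l hl => hk0 l (by
      show SurvSet k0 (tn _)
      rw [← res_orc]; exact hl))
  have h2 : S1 (orc X) (fun n : ℕ => ∃ s, kin s n) :=
    S1.ex (A := fun (n : ℕ) (s : ℕ) => kin s n)
      (S1.prim (prim_kin.comp Primrec.snd Primrec.fst))
  have h3 : S1 (orc X) (fun p : ℕ × ℕ => halting p.1 = p.2) := by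
    classical
    have ha : S1 (orc X) (fun p : ℕ × ℕ => ((∃ s, kin s p.1) ∧ p.2 = 1) ∨
        ((∀ s, ¬ kin s p.1) ∧ p.2 = 0)) := by
      refine S1.or (S1.and (h2.comp Primrec.fst) (S1.prim ?_))
        (S1.and (h1.comp Primrec.fst) (S1.prim ?_))
      · exact Primrec.eq.comp Primrec.snd (Primrec.const 1)
      · exact Primrec.eq.comp Primrec.snd (Primrec.const 0)
    refine ha.of_iff ?_
    rintro ⟨n, m⟩
    have hh : halting n = if (∃ s, kin s n) then 1 else 0 := by
      unfold halting
      by_cases h : ∃ s, kin s n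
      · rw [if_pos h, if_pos ((kin_iff n).1 h)]
      · rw [if_neg h, if_neg (fun h' => h ((kin_iff n).2 h'))]
    show _ ↔ halting n = m
    rw [hh]
    by_cases h : ∃ s, kin s n
    · rw [if_pos h]
      constructor
      · rintro (⟨-, h4⟩ | ⟨h4, -⟩)
        · exact h4.symm
        · obtain ⟨s, hs⟩ := h
          exact absurd hs (h4 s)
      · intro h4; exact Or.inl ⟨h, h4.symm⟩
    · rw [if_neg h]
      push Not at h
      constructor
      · rintro (⟨⟨s, hs⟩, -⟩ | ⟨-, h4⟩)
        · exact absurd hs (h s)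
        · exact h4.symm
      · intro h4; exact Or.inr ⟨h, h4.symm⟩
  exact RecursiveIn.iff_nat.2 (RI.of_s1 h3)

theorem inDiag_of_halting {X : ℕ → Bool} (h : ComputableFrom halting X) : InDiag X := by
  classical
  rintro E ⟨hE, hce⟩ ⟨a, b, hab⟩
  obtain ⟨c, hc⟩ := Nat.Partrec.Code.exists_code.1 hce
  have key : ∀ x, E x a ↔ (Nat.Partrec.Code.eval c (Encodable.encode (x, a))).Dom := by
    intro x
    rw [hc, Part.dom_iff_mem]
    constructor
    · intro h
      refine ⟨Encodable.encode (), ?_⟩
      simp only [Encodable.encodek, Part.coe_some, Part.bind_some, Part.mem_map_iff,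
        Part.mem_assert_iff, Part.mem_some_iff]
      exact ⟨(), ⟨h, trivial⟩, trivial⟩
    · rintro ⟨v, hv⟩
      simp only [Encodable.encodek, Part.coe_some, Part.bind_some, Part.mem_map_iff,
        Part.mem_assert_iff, Part.mem_some_iff] at hv
      obtain ⟨_, ⟨ha, -⟩, -⟩ := hv
      exact ha
  let q : ℕ → ℕ := fun x => Encodable.encode
    (Nat.Partrec.Code.comp c (Nat.Partrec.Code.const (Encodable.encode (x, a))))
  have hq : Primrec q := by
    refine Primrec.encode.comp (Nat.Partrec.Code.primrec₂_comp.comp (Primrec.const c) ?_)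
    refine Nat.Partrec.Code.primrec_const.comp (Primrec.encode.comp ?_)
    exact Primrec.pair Primrec.id (Primrec.const a)
  have hqE : ∀ x, halting (q x) = 1 ↔ E x a := by
    intro x
    rw [key x]
    unfold halting
    rw [← Nat.Partrec.Code.ofNatCode_eq]
    simp only [q, Denumerable.ofNat_encode]
    have : (Nat.Partrec.Code.comp c (Nat.Partrec.Code.const (Encodable.encode (x, a)))).eval
        (Encodable.encode (Nat.Partrec.Code.comp c
          (Nat.Partrec.Code.const (Encodable.encode (x, a))))) =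
        c.eval (Encodable.encode (x, a)) := by
      simp [Nat.Partrec.Code.eval]
    rw [this]
    by_cases h1 : (c.eval (Encodable.encode (x, a))).Dom
    · rw [if_pos h1]; exact ⟨fun _ => h1, fun _ => rfl⟩
    · rw [if_neg h1]; exact ⟨fun h2 => absurd h2 (by omega), fun h2 => absurd h2 h1⟩
  have hh : RI (orc X) halting := RecursiveIn.iff_nat.1 h
  have hg : RI (orc X) (fun x => if halting (q x) = 1 then b else a) := by
    have h1 : Primrec (fun y : ℕ => if y = 1 then b else a) :=
      Primrec.ite (Primrec.eq.comp Primrec.id (Primrec.const 1)) (Primrec.const b)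
        (Primrec.const a)
    exact (RI.prim h1).comp (hh.comp (RI.prim hq))
  refine ⟨_, RecursiveIn.iff_nat.2 hg, fun x hx => ?_⟩
  by_cases h1 : E x a
  · simp only [(hqE x).2 h1, if_true] at hx
    exact hab (hE.symm (hE.trans hx h1))
  · have : ¬ halting (q x) = 1 := fun h2 => h1 ((hqE x).1 h2)
    simp only [this, if_false] at hx
    exact h1 (hE.symm hx)

theorem result : ∃ E : ℕ → ℕ → Prop, (IsCeer E ∧ ∃ a b, ¬ E a b) ∧
    ∀ X : ℕ → Bool, MLRandom X →
      (ComputesDiagonal X E ↔ ComputableFrom halting X) ∧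
      (InDiag X ↔ ComputableFrom halting X) := by
  have hE : IsCeer ERand ∧ ∃ a b, ¬ ERand a b :=
    ⟨⟨equiv_ERand, re_ERand⟩, 0, 1, not_ERand_zero_one⟩
  refine ⟨ERand, hE, fun X hX => ⟨⟨halting_of_diagonal hX, fun h => ?_⟩, ⟨fun h => ?_,
    inDiag_of_halting⟩⟩⟩
  · exact inDiag_of_halting h ERand hE.1 hE.2
  · exact halting_of_diagonal hX (h ERand hE.1 hE.2)

end Pool.Agent.Results.MP_a87378_lc.RandomDegrees
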